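import Pool.Agent.Helper49.FX.M_FTH

/-!
# Project FX, chapter K, module D3: `E₂` is regular modulo `(ν, ρ, σ)`
-/

set_option autoImplicit false

namespace Pool.Agent.Helper49.FX

open Pool.Agent.Helper72.FX Pool.Agent.Helper21.FX
open Polynomial

noncomputable section

abbrev Q9 : Type := MvPolynomial (Fin 9) ℂ

/-- single out the variable `ω_y` -/
def ey : P0 ≃ₐ[ℂ] Q9[X] := (MvPolynomial.renameEquiv ℂ (_root_.finSuccEquiv' (8 : Fin 10))).trans
  (MvPolynomial.optionEquivLeft ℂ (Fin 9))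

theorem ey_X (i : Fin 10) (j : Fin 9) (h : _root_.finSuccEquiv' (8 : Fin 10) i = some j) :
    ey (MvPolynomial.X i) = C (MvPolynomial.X j) := by
  unfold ey
  rw [AlgEquiv.trans_apply, MvPolynomial.renameEquiv_apply, MvPolynomial.rename_X, h,
    MvPolynomial.optionEquivLeft_X_some]

theorem ey_y : ey y0 = X := by
  unfold ey y0
  rw [AlgEquiv.trans_apply, MvPolynomial.renameEquiv_apply, MvPolynomial.rename_X]
  have h : _root_.finSuccEquiv' (8 : Fin 10) 8 = none := by decide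
  rw [h, MvPolynomial.optionEquivLeft_X_none]

def a9 : Q9 := MvPolynomial.X 0
def b9 : Q9 := MvPolynomial.X 1
def t9 : Q9 := MvPolynomial.X 2
def r9 : Q9 := MvPolynomial.X 3
def n9 : Q9 := MvPolynomial.X 4
def s9 : Q9 := MvPolynomial.X 5
def m9 : Q9 := MvPolynomial.X 6
def x9 : Q9 := MvPolynomial.X 7

theorem ey_a : ey a0 = C a9 := ey_X 0 0 (by decide)
theorem ey_b : ey b0 = C b9 := ey_X 1 1 (by decide)
theorem ey_t : ey t0 = C t9 := ey_X 2 2 (by decide)
theorem ey_r : ey r0 = C r9 := ey_X 3 3 (by decide)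
theorem ey_n : ey n0 = C n9 := ey_X 4 4 (by decide)
theorem ey_s : ey s0 = C s9 := ey_X 5 5 (by decide)
theorem ey_m : ey m0 = C m9 := ey_X 6 6 (by decide)
theorem ey_x : ey x0 = C x9 := ey_X 7 7 (by decide)

theorem ey_kappa : ey (kappa a0 b0 t0) = C (kappa a9 b9 t9) := by
  have h1 := map_kappa (A := P0) (A' := Q9[X]) ey.toAlgHom a0 b0 t0
  have h2 := map_kappa (A := Q9) (A' := Q9[X]) (CAlgHom (R := ℂ) (A := Q9)) a9 b9 t9
  have h3 : ey.toAlgHom a0 = C a9 := ey_a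
  have h4 : ey.toAlgHom b0 = C b9 := ey_b
  have h5 : ey.toAlgHom t0 = C t9 := ey_t
  rw [h3, h4, h5] at h1
  rw [CAlgHom_apply, CAlgHom_apply, CAlgHom_apply, CAlgHom_apply] at h2
  rw [← h2] at h1
  exact h1

theorem ey_nu : ey (nu a0 b0 t0) = C (nu a9 b9 t9) := by
  have h1 := map_nu (A := P0) (A' := Q9[X]) ey.toAlgHom a0 b0 t0
  have h2 := map_nu (A := Q9) (A' := Q9[X]) (CAlgHom (R := ℂ) (A := Q9)) a9 b9 t9
  have h3 : ey.toAlgHom a0 = C a9 := ey_a
  have h4 : ey.toAlgHom b0 = C b9 := ey_b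
  have h5 : ey.toAlgHom t0 = C t9 := ey_t
  rw [h3, h4, h5] at h1
  rw [CAlgHom_apply, CAlgHom_apply, CAlgHom_apply, CAlgHom_apply] at h2
  rw [← h2] at h1
  exact h1

def w9 : Q9 := x9 + m9 * n9 * kappa a9 b9 t9

def J9 : Ideal Q9 := Ideal.span {nu a9 b9 t9, r9, s9}

def Jp : Ideal P0 := Ideal.span {nu a0 b0 t0, r0, s0}

theorem mapJ (f : P0) (hf : f ∈ Jp) : ey f ∈ J9.map (C : Q9 →+* Q9[X]) := by
  have h : Jp.map (ey : P0 →+* Q9[X]) ≤ J9.map (C : Q9 →+* Q9[X]) := by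
    unfold Jp
    rw [Ideal.map_span, Ideal.span_le]
    rintro _ ⟨u, hu, rfl⟩
    rcases hu with rfl | rfl | rfl
    · change ey (nu a0 b0 t0) ∈ _
      rw [ey_nu]
      exact Ideal.mem_map_of_mem _ (Ideal.subset_span (by simp))
    · change ey r0 ∈ _
      rw [ey_r]
      exact Ideal.mem_map_of_mem _ (Ideal.subset_span (by simp))
    · change ey s0 ∈ _
      rw [ey_s]
      exact Ideal.mem_map_of_mem _ (Ideal.subset_span (by simp))
  exact h (Ideal.mem_map_of_mem (ey : P0 →+* Q9[X]) hf)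

theorem mapJ' (g : Q9[X]) (hg : g ∈ J9.map (C : Q9 →+* Q9[X])) : ey.symm g ∈ Jp := by
  have h : J9.map (C : Q9 →+* Q9[X]) ≤ Jp.comap (ey.symm : Q9[X] →+* P0) := by
    unfold J9
    rw [Ideal.map_span, Ideal.span_le]
    rintro _ ⟨u, hu, rfl⟩
    rcases hu with rfl | rfl | rfl
    · change ey.symm (C (nu a9 b9 t9)) ∈ Jp
      rw [← ey_nu, AlgEquiv.symm_apply_apply]
      exact Ideal.subset_span (by simp)
    · change ey.symm (C r9) ∈ Jp
      rw [← ey_r, AlgEquiv.symm_apply_apply]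
      exact Ideal.subset_span (by simp)
    · change ey.symm (C s9) ∈ Jp
      rw [← ey_s, AlgEquiv.symm_apply_apply]
      exact Ideal.subset_span (by simp)
  exact h hg

theorem hD3 : StD3 := by
  intro y hy
  change y ∈ Jp
  have hs : s0 ∈ Jp := Ideal.subset_span (by simp)
  have h1 : (y0 - (x0 + m0 * n0 * kappa a0 b0 t0)) * y ∈ Jp := by
    have : (y0 - (x0 + m0 * n0 * kappa a0 b0 t0)) * y = E20 * y -
        s0 * ((t0 * m0 * kx a0 b0 t0 * y0 + t0 * m0 * ky a0 b0 t0 * x0 +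
          t0 * r0 * x0 * y0 - 2 * m0 * kz a0 b0 t0 * z0 - r0 * z0 ^ 2) * y) := by
      unfold E20 E2
      ring
    rw [this]
    exact Ideal.sub_mem _ hy (Ideal.mul_mem_right _ _ hs)
  have h2 := mapJ _ h1
  rw [map_mul, map_sub, map_add, map_mul, map_mul, ey_y, ey_x, ey_m, ey_n, ey_kappa] at h2
  have h3 : (X - C w9) * ey y ∈ J9.map (C : Q9 →+* Q9[X]) := by
    have : (X - C w9 : Q9[X]) = X - (C x9 + C m9 * C n9 * C (kappa a9 b9 t9)) := by
      unfold w9
      rw [C_add, C_mul, C_mul]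
    rw [this]
    exact h2
  have h4 := mapJ' _ (monreg J9 w9 (ey y) h3)
  rwa [AlgEquiv.symm_apply_apply] at h4

end

end Pool.Agent.Helper49.FX
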