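import Pool.Agent.Helper21.FX.StF

/-!
# Project FX, chapter K, module F1: the ideal of the first pencil is prime
-/

set_option autoImplicit false

namespace Pool.Agent.Helper49.FX

open Pool.Agent.Helper72.FX Pool.Agent.Helper21.FX
open Polynomial

noncomputable section

theorem prime_s7 : Prime s7 := MvPolynomial.X_prime

theorem s7_ndvd : ¬ s7 ∣ q7 := by
  rintro ⟨w, hw⟩
  have h := congrArg (MvPolynomial.eval (![0, 1, 0, 0, 0, 0, 0] : Fin 7 → ℂ)) hw
  unfold q7 nu7 nu s7 m7 a7 b7 t7 at h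
  simp at h

theorem D7_ne : D7 ≠ 0 := by
  intro h
  have h2 := congrArg (MvPolynomial.eval (0 : Fin 7 → ℂ)) h
  unfold D7 at h2
  rw [map_add, map_mul, map_mul, map_one, map_zero] at h2
  have h3 : MvPolynomial.eval (0 : Fin 7 → ℂ) t7 = 0 := by unfold t7; simp
  rw [h3] at h2
  simp at h2

theorem I8_eq : I8 = Ideal.span {pel s7 q7} := by
  unfold I8 pid
  rw [Ideal.map_bot, bot_sup_eq]

theorem hF1 : StF1 := by
  intro h
  obtain ⟨h1, h2⟩ := h B7 s7 q7 prime_s7 s7_ndvd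
  rw [I8_eq]
  exact ⟨h1, fun h3 => prime_s7.ne_zero (h2 _ h3), fun h3 => D7_ne (h2 _ h3)⟩

end

end Pool.Agent.Helper49.FX
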