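import Pool.Agent.Helper21.FX.StF

/-!
# Project FX, chapter K, module FTH: the map `P0 → B9` which identifies `ρ` and `σ`
-/

set_option autoImplicit false

namespace Pool.Agent.Helper49.FX

open Pool.Agent.Helper72.FX Pool.Agent.Helper21.FX
open Polynomial

noncomputable section

section kmap

variable {A A' : Type} [CommRing A] [Algebra ℂ A] [CommRing A'] [Algebra ℂ A'] (f : A →ₐ[ℂ] A')

theorem vec3_map (a b t : A) : (fun i => f (![a, b, t] i)) = ![f a, f b, f t] := by
  funext i; fin_cases i <;> rfl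

theorem map_kx (a b t : A) : f (kx a b t) = kx (f a) (f b) (f t) := by
  unfold kx
  rw [MvPolynomial.comp_aeval_apply, vec3_map]

theorem map_ky (a b t : A) : f (ky a b t) = ky (f a) (f b) (f t) := by
  unfold ky
  rw [MvPolynomial.comp_aeval_apply, vec3_map]

theorem map_kz (a b t : A) : f (kz a b t) = kz (f a) (f b) (f t) := by
  unfold kz
  rw [MvPolynomial.comp_aeval_apply, vec3_map]

theorem map_kappa (a b t : A) : f (kappa a b t) = kappa (f a) (f b) (f t) := by
  unfold kappa
  rw [map_sub, map_mul, map_mul, map_pow, map_kx, map_ky, map_kz]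

theorem map_nu (a b t : A) : f (nu a b t) = nu (f a) (f b) (f t) := by
  unfold nu
  simp only [map_sub, map_add, map_mul, map_pow, map_ofNat]

end kmap

/-- the composite of the two constant embeddings -/
def CC : B7 →ₐ[ℂ] B9 := (CAlgHom (R := ℂ) (A := B8)).comp (CAlgHom (R := ℂ) (A := B7))

theorem CC_apply (z : B7) : CC z = C (C z) := rfl

def vv : Fin 10 → B9 := ![C (C a7), C (C b7), C (C t7), C (C s7), C X, C (C s7), C (C m7),
  C (C x7), X, C (C z7)]

def th : P0 →ₐ[ℂ] B9 := MvPolynomial.aeval vv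

theorem th_a : th a0 = C (C a7) := by unfold th a0; rw [MvPolynomial.aeval_X]; rfl
theorem th_b : th b0 = C (C b7) := by unfold th b0; rw [MvPolynomial.aeval_X]; rfl
theorem th_t : th t0 = C (C t7) := by unfold th t0; rw [MvPolynomial.aeval_X]; rfl
theorem th_r : th r0 = C (C s7) := by unfold th r0; rw [MvPolynomial.aeval_X]; rfl
theorem th_n : th n0 = C X := by unfold th n0; rw [MvPolynomial.aeval_X]; rfl
theorem th_s : th s0 = C (C s7) := by unfold th s0; rw [MvPolynomial.aeval_X]; rfl
theorem th_m : th m0 = C (C m7) := by unfold th m0; rw [MvPolynomial.aeval_X]; rfl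
theorem th_x : th x0 = C (C x7) := by unfold th x0; rw [MvPolynomial.aeval_X]; rfl
theorem th_y : th y0 = X := by unfold th y0; rw [MvPolynomial.aeval_X]; rfl
theorem th_z : th z0 = C (C z7) := by unfold th z0; rw [MvPolynomial.aeval_X]; rfl

/-- the embedding `B7 → P0` -/
def j7 : B7 →ₐ[ℂ] P0 := MvPolynomial.aeval ![a0, b0, t0, s0, m0, x0, z0]

def ph8 : B8 →+* P0 := eval₂RingHom j7.toRingHom n0
def ph : B9 →+* P0 := eval₂RingHom ph8 y0

theorem ph_CC (z : B7) : ph (C (C z)) = j7 z := by
  unfold ph ph8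
  rw [coe_eval₂RingHom, eval₂_C, coe_eval₂RingHom, eval₂_C]
  rfl

theorem ph_CX : ph (C X) = n0 := by
  unfold ph ph8
  rw [coe_eval₂RingHom, eval₂_C, coe_eval₂RingHom, eval₂_X]

theorem ph_X : ph X = y0 := by
  unfold ph
  rw [coe_eval₂RingHom, eval₂_X]

theorem ph_const (z : ℂ) : ph (algebraMap ℂ B9 z) = algebraMap ℂ P0 z := by
  have h : algebraMap ℂ B9 z = C (C (algebraMap ℂ B7 z)) := rfl
  rw [h, ph_CC, AlgHom.commutes]

theorem j_a : j7 a7 = a0 := by unfold j7 a7; rw [MvPolynomial.aeval_X]; rfl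
theorem j_b : j7 b7 = b0 := by unfold j7 b7; rw [MvPolynomial.aeval_X]; rfl
theorem j_t : j7 t7 = t0 := by unfold j7 t7; rw [MvPolynomial.aeval_X]; rfl
theorem j_s : j7 s7 = s0 := by unfold j7 s7; rw [MvPolynomial.aeval_X]; rfl
theorem j_m : j7 m7 = m0 := by unfold j7 m7; rw [MvPolynomial.aeval_X]; rfl
theorem j_x : j7 x7 = x0 := by unfold j7 x7; rw [MvPolynomial.aeval_X]; rfl
theorem j_z : j7 z7 = z0 := by unfold j7 z7; rw [MvPolynomial.aeval_X]; rfl

theorem th_j (z : B7) : th (j7 z) = CC z := by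
  have h : th.comp j7 = CC := by
    apply MvPolynomial.algHom_ext
    intro i
    rw [AlgHom.comp_apply]
    fin_cases i
    · exact (congrArg th j_a).trans th_a
    · exact (congrArg th j_b).trans th_b
    · exact (congrArg th j_t).trans th_t
    · exact (congrArg th j_s).trans th_s
    · exact (congrArg th j_m).trans th_m
    · exact (congrArg th j_x).trans th_x
    · exact (congrArg th j_z).trans th_z
  rw [← h]; rfl

theorem th_ph (g : B9) : th (ph g) = g := by
  have h : (th : P0 →+* B9).comp ph = RingHom.id B9 := by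
    apply Polynomial.ringHom_ext
    · intro u
      have h2 : ((th : P0 →+* B9).comp ph).comp (C : B8 →+* B9) = (C : B8 →+* B9) := by
        apply Polynomial.ringHom_ext
        · intro z
          change th (ph (C (C z))) = C (C z)
          rw [ph_CC, th_j]; rfl
        · change th (ph (C X)) = C X
          rw [ph_CX, th_n]
      exact congrArg (fun r : B8 →+* B9 => r u) h2
    · change th (ph X) = X
      rw [ph_X, th_y]
  exact congrArg (fun r : B9 →+* B9 => r g) h

theorem ph_th_X (i : Fin 10) : (MvPolynomial.X i : P0) - ph (th (MvPolynomial.X i)) ∈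
    Ideal.span {s0 - r0} := by
  have h0 : ∀ u w : P0, ph (th u) = w → u = w → u - ph (th u) ∈ Ideal.span {s0 - r0} := by
    intro u w h1 h2
    rw [h1, h2, sub_self]
    exact Ideal.zero_mem _
  fin_cases i
  · exact h0 a0 a0 (by rw [th_a, ph_CC, j_a]) rfl
  · exact h0 b0 b0 (by rw [th_b, ph_CC, j_b]) rfl
  · exact h0 t0 t0 (by rw [th_t, ph_CC, j_t]) rfl
  · change r0 - ph (th r0) ∈ _
    rw [th_r, ph_CC, j_s]
    exact Ideal.mem_span_singleton'.2 ⟨-1, by ring⟩
  · exact h0 n0 n0 (by rw [th_n, ph_CX]) rfl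
  · exact h0 s0 s0 (by rw [th_s, ph_CC, j_s]) rfl
  · exact h0 m0 m0 (by rw [th_m, ph_CC, j_m]) rfl
  · exact h0 x0 x0 (by rw [th_x, ph_CC, j_x]) rfl
  · exact h0 y0 y0 (by rw [th_y, ph_X]) rfl
  · exact h0 z0 z0 (by rw [th_z, ph_CC, j_z]) rfl

theorem ph_th (f : P0) : f - ph (th f) ∈ Ideal.span {s0 - r0} := by
  induction f using MvPolynomial.induction_on with
  | C z =>
    have h : th (MvPolynomial.C z) = algebraMap ℂ B9 z := th.commutes z
    rw [h, ph_const]
    have : (MvPolynomial.C z : P0) - algebraMap ℂ P0 z = 0 := sub_self _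
    rw [this]
    exact Ideal.zero_mem _
  | add p q hp hq =>
    rw [map_add, map_add]
    have : p + q - (ph (th p) + ph (th q)) = (p - ph (th p)) + (q - ph (th q)) := by ring
    rw [this]
    exact Ideal.add_mem _ hp hq
  | mul_X p i hp =>
    rw [map_mul, map_mul]
    have : p * MvPolynomial.X i - ph (th p) * ph (th (MvPolynomial.X i)) =
        (p - ph (th p)) * MvPolynomial.X i +
        ph (th p) * ((MvPolynomial.X i : P0) - ph (th (MvPolynomial.X i))) := by ring
    rw [this]
    exact Ideal.add_mem _ (Ideal.mul_mem_right _ _ hp) (Ideal.mul_mem_left _ _ (ph_th_X i))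

theorem th_kx : th (kx a0 b0 t0) = C (C (kx a7 b7 t7)) := by
  have h1 := map_kx (A := P0) (A' := B9) th a0 b0 t0
  have h2 := map_kx (A := B7) (A' := B9) CC a7 b7 t7
  rw [th_a, th_b, th_t] at h1
  rw [CC_apply, CC_apply, CC_apply, CC_apply] at h2
  rw [h1, ← h2]

theorem th_ky : th (ky a0 b0 t0) = C (C (ky a7 b7 t7)) := by
  have h1 := map_ky (A := P0) (A' := B9) th a0 b0 t0
  have h2 := map_ky (A := B7) (A' := B9) CC a7 b7 t7
  rw [th_a, th_b, th_t] at h1
  rw [CC_apply, CC_apply, CC_apply, CC_apply] at h2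
  rw [h1, ← h2]

theorem th_kz : th (kz a0 b0 t0) = C (C (kz a7 b7 t7)) := by
  have h1 := map_kz (A := P0) (A' := B9) th a0 b0 t0
  have h2 := map_kz (A := B7) (A' := B9) CC a7 b7 t7
  rw [th_a, th_b, th_t] at h1
  rw [CC_apply, CC_apply, CC_apply, CC_apply] at h2
  rw [h1, ← h2]

theorem th_kappa : th (kappa a0 b0 t0) = C (C (kappa a7 b7 t7)) := by
  have h1 := map_kappa (A := P0) (A' := B9) th a0 b0 t0
  have h2 := map_kappa (A := B7) (A' := B9) CC a7 b7 t7
  rw [th_a, th_b, th_t] at h1
  rw [CC_apply, CC_apply, CC_apply, CC_apply] at h2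
  rw [h1, ← h2]

theorem th_nu : th (nu a0 b0 t0) = C (C nu7) := by
  have h1 := map_nu (A := P0) (A' := B9) th a0 b0 t0
  have h2 := map_nu (A := B7) (A' := B9) CC a7 b7 t7
  rw [th_a, th_b, th_t] at h1
  rw [CC_apply, CC_apply, CC_apply, CC_apply] at h2
  rw [h1, ← h2]
  rfl

theorem hFTH : StFTH := by
  refine ⟨th.toRingHom, fun g => ⟨ph g, th_ph g⟩, ?_, ?_, ?_, th_s, th_r, ?_⟩
  · apply le_antisymm
    · intro f hf
      have h1 : th f = 0 := hf
      have h2 := ph_th f
      rwa [h1, map_zero, sub_zero] at h2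
    · rw [Ideal.span_le]
      intro f hf
      rw [Set.mem_singleton_iff] at hf
      rw [hf]
      change th (s0 - r0) = 0
      rw [map_sub, th_s, th_r, sub_self]
  · change th E10 = _
    unfold E10 E1
    rw [map_sub, map_sub, map_mul, map_mul, th_nu, th_r, th_n, th_s, th_m]
    unfold pel q7
    simp only [map_sub, map_mul, map_neg]
    ring
  · change th E20 = _
    unfold E20 E2
    simp only [map_add, map_sub, map_mul, map_neg, map_pow, map_ofNat, th_kappa, th_kx, th_ky,
      th_kz, th_t, th_r, th_n, th_s, th_m, th_x, th_y, th_z]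
    unfold D7 h8
    simp only [map_add, map_sub, map_mul, map_pow, map_ofNat, map_one]
    ring
  · change th D0 = _
    unfold D0 D7
    simp only [map_add, map_mul, map_one, th_kx, th_t, th_r, th_s, th_m, th_x]

end

end Pool.Agent.Helper49.FX
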